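import Pool.Agent.Helper73.LF.Goals
import Pool.Agent.Helper92.Field.Divisor

/-!
# LF-BLK (MP_c307ca_nt): the second terms
-/

set_option autoImplicit false

namespace Pool.Agent.Helper26.LF

open Finset Pool.Agent.Helper98.Lang Pool.Agent.Helper73.LF

theorem Pr_nonneg {m : ℕ} (θ : Fin m → ℝ) (H h : ℕ) : 0 ≤ Pr θ H h := by
  unfold Pr
  refine Finset.prod_nonneg fun i _ => le_min (by positivity) ?_
  exact div_nonneg zero_le_one (abs_nonneg _)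

/-- partial summation -/
theorem psum (f : ℕ → ℝ) (hf : ∀ y, 0 ≤ f y) (A δ : ℝ) (hA : 0 ≤ A) (hδ : 0 < δ)
    (h : ∀ Y : ℕ, ∑ y ∈ Icc 1 Y, f y ≤ A * (Y : ℝ) ^ (1 + δ)) (Y : ℕ) :
    ∑ y ∈ Icc 1 Y, f y * (y : ℝ) ^ (-(1 / 2 : ℝ)) ≤ 5 * A * (Y : ℝ) ^ (1 / 2 + δ) := by
  induction Y using Nat.strong_induction_on with
  | _ Y ih =>
  rcases Nat.eq_zero_or_pos Y with rfl | hY
  · simp only [zero_lt_one, Icc_eq_empty_of_lt, sum_empty]
    positivity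
  have hlt : Y / 2 < Y := Nat.div_lt_self hY (by norm_num)
  have h1 := ih (Y / 2) hlt
  have hsplit : Icc 1 Y = Icc 1 (Y / 2) ∪ Icc (Y / 2 + 1) Y := by
    ext a; simp only [mem_union, mem_Icc]; omega
  have hdisj : Disjoint (Icc 1 (Y / 2)) (Icc (Y / 2 + 1) Y) := by
    rw [Finset.disjoint_left]; intro a ha hb; simp only [mem_Icc] at ha hb; omega
  rw [hsplit, sum_union hdisj]
  have hYr : (0 : ℝ) < Y := by exact_mod_cast hY
  have h2 : ∑ y ∈ Icc (Y / 2 + 1) Y, f y * (y : ℝ) ^ (-(1 / 2 : ℝ)) ≤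
      ((Y : ℝ) / 2) ^ (-(1 / 2 : ℝ)) * (A * (Y : ℝ) ^ (1 + δ)) := by
    calc ∑ y ∈ Icc (Y / 2 + 1) Y, f y * (y : ℝ) ^ (-(1 / 2 : ℝ))
        ≤ ∑ y ∈ Icc (Y / 2 + 1) Y, f y * ((Y : ℝ) / 2) ^ (-(1 / 2 : ℝ)) := by
          refine sum_le_sum fun y hy => ?_
          refine mul_le_mul_of_nonneg_left ?_ (hf y)
          refine Real.rpow_le_rpow_of_nonpos (by positivity) ?_ (by norm_num)
          simp only [mem_Icc] at hy
          have : Y ≤ 2 * y := by omega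
          have : (Y : ℝ) ≤ 2 * y := by exact_mod_cast this
          linarith
      _ = (∑ y ∈ Icc (Y / 2 + 1) Y, f y) * ((Y : ℝ) / 2) ^ (-(1 / 2 : ℝ)) := by rw [sum_mul]
      _ ≤ (∑ y ∈ Icc 1 Y, f y) * ((Y : ℝ) / 2) ^ (-(1 / 2 : ℝ)) := by
          refine mul_le_mul_of_nonneg_right ?_ (by positivity)
          exact sum_le_sum_of_subset_of_nonneg (by intro a; simp only [mem_Icc]; omega)
            (fun a _ _ => hf a)
      _ ≤ _ := by rw [mul_comm]; exact mul_le_mul_of_nonneg_left (h Y) (by positivity)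
  have h3 : ((Y / 2 : ℕ) : ℝ) ^ (1 / 2 + δ) ≤ ((Y : ℝ) / 2) ^ (1 / 2 + δ) := by
    refine Real.rpow_le_rpow (by positivity) ?_ (by positivity)
    exact Nat.cast_div_le
  have h4 : ((Y : ℝ) / 2) ^ (1 / 2 + δ) = (Y : ℝ) ^ (1 / 2 + δ) * (1 / 2) ^ (1 / 2 + δ) := by
    rw [div_eq_mul_one_div, Real.mul_rpow (by positivity) (by positivity)]
  have h5 : ((1 : ℝ) / 2) ^ (1 / 2 + δ) ≤ 0.71 := by
    calc ((1 : ℝ) / 2) ^ (1 / 2 + δ) ≤ ((1 : ℝ) / 2) ^ (1 / 2 : ℝ) :=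
          Real.rpow_le_rpow_of_exponent_ge (by norm_num) (by norm_num) (by linarith)
      _ = Real.sqrt (1 / 2) := by rw [Real.sqrt_eq_rpow]
      _ ≤ 0.71 := by rw [Real.sqrt_le_left (by norm_num)]; norm_num
  have h7 : ((1 : ℝ) / 2) ^ (-(1 / 2 : ℝ)) ≤ 1.42 := by
    have : ((1 : ℝ) / 2) ^ (-(1 / 2 : ℝ)) = Real.sqrt 2 := by
      rw [Real.sqrt_eq_rpow, one_div, Real.inv_rpow (by norm_num), Real.rpow_neg (by norm_num),
        inv_inv]
    rw [this, Real.sqrt_le_left (by norm_num)]; norm_num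
  have h6 : ((Y : ℝ) / 2) ^ (-(1 / 2 : ℝ)) * (A * (Y : ℝ) ^ (1 + δ)) ≤
      1.42 * (A * (Y : ℝ) ^ (1 / 2 + δ)) := by
    have e1 : ((Y : ℝ) / 2) ^ (-(1 / 2 : ℝ)) = (Y : ℝ) ^ (-(1 / 2 : ℝ)) * (1 / 2) ^ (-(1 / 2 : ℝ)) := by
      rw [div_eq_mul_one_div, Real.mul_rpow (by positivity) (by positivity)]
    have e2 : (Y : ℝ) ^ (-(1 / 2 : ℝ)) * (Y : ℝ) ^ (1 + δ) = (Y : ℝ) ^ (1 / 2 + δ) := by
      rw [← Real.rpow_add hYr]; congr 1; ring
    calc ((Y : ℝ) / 2) ^ (-(1 / 2 : ℝ)) * (A * (Y : ℝ) ^ (1 + δ))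
        = ((1 : ℝ) / 2) ^ (-(1 / 2 : ℝ)) * (A * ((Y : ℝ) ^ (-(1 / 2 : ℝ)) * (Y : ℝ) ^ (1 + δ))) := by
          rw [e1]; ring
      _ = ((1 : ℝ) / 2) ^ (-(1 / 2 : ℝ)) * (A * (Y : ℝ) ^ (1 / 2 + δ)) := by rw [e2]
      _ ≤ _ := mul_le_mul_of_nonneg_right h7 (by positivity)
  have hP : 0 ≤ A * (Y : ℝ) ^ (1 / 2 + δ) := by positivity
  have h8 : 5 * A * ((Y / 2 : ℕ) : ℝ) ^ (1 / 2 + δ) ≤ 3.55 * (A * (Y : ℝ) ^ (1 / 2 + δ)) := by
    calc 5 * A * ((Y / 2 : ℕ) : ℝ) ^ (1 / 2 + δ) ≤ 5 * A * ((Y : ℝ) / 2) ^ (1 / 2 + δ) :=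
          mul_le_mul_of_nonneg_left h3 (by positivity)
      _ = 5 * (A * (Y : ℝ) ^ (1 / 2 + δ)) * (1 / 2) ^ (1 / 2 + δ) := by rw [h4]; ring
      _ ≤ 5 * (A * (Y : ℝ) ^ (1 / 2 + δ)) * 0.71 := mul_le_mul_of_nonneg_left h5 (by positivity)
      _ = _ := by ring
  calc _ ≤ 3.55 * (A * (Y : ℝ) ^ (1 / 2 + δ)) + 1.42 * (A * (Y : ℝ) ^ (1 / 2 + δ)) :=
        add_le_add (h1.trans h8) (h2.trans h6)
    _ ≤ 5 * A * (Y : ℝ) ^ (1 / 2 + δ) := by nlinarith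

/-- the fibres of the product map -/
theorem fib (g : ℕ → ℝ) (hg : ∀ y, 0 ≤ g y) (X Y : ℕ) (T : ℕ → ℕ)
    (hY : ∀ q ∈ Icc 2 X, ∀ h ∈ Ico 1 (T q), h * q ≤ Y) :
    ∑ q ∈ Icc 2 X, ∑ h ∈ Ico 1 (T q), g (h * q) ≤ ∑ y ∈ Icc 1 Y, (y.divisors.card : ℝ) * g y := by
  rw [Finset.sum_sigma']
  have hm : ∀ p ∈ (Icc 2 X).sigma (fun q => Ico 1 (T q)), p.2 * p.1 ∈ Icc 1 Y := by
    intro p hp
    rw [mem_sigma] at hp
    have h1 := hY p.1 hp.1 p.2 hp.2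
    have h2 := hp.1
    have h3 := hp.2
    rw [mem_Icc] at h2
    rw [mem_Ico] at h3
    rw [mem_Icc]
    exact ⟨Nat.mul_pos h3.1 (by omega), h1⟩
  rw [← Finset.sum_fiberwise_of_maps_to hm]
  refine sum_le_sum fun y hy => ?_
  have h0 : ∀ p ∈ ((Icc 2 X).sigma (fun q => Ico 1 (T q))).filter (fun p => p.2 * p.1 = y),
      g (p.2 * p.1) = g y := by
    intro p hp
    rw [(mem_filter.1 hp).2]
  rw [sum_congr rfl h0, sum_const, nsmul_eq_mul]
  refine mul_le_mul_of_nonneg_right ?_ (hg y)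
  rw [Nat.cast_le]
  refine Finset.card_le_card_of_injOn (fun p => p.1) ?_ ?_
  · intro p hp
    have h1 := (mem_filter.1 hp).2
    rw [mem_Icc] at hy
    simp only [Finset.mem_coe, Nat.mem_divisors]
    exact ⟨⟨p.2, by rw [← h1, mul_comm]⟩, by omega⟩
  · intro p hp p' hp' he
    have h1 := mem_filter.1 (mem_coe.1 hp)
    have h1' := mem_filter.1 (mem_coe.1 hp')
    have h2 := mem_sigma.1 h1.1
    have h3 := mem_Icc.1 h2.1
    obtain ⟨q, h⟩ := p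
    obtain ⟨q', h'⟩ := p'
    simp only at he
    subst he
    have h4 : h * q = h' * q := h1.2.trans h1'.2.symm
    have h5 : h = h' := Nat.eq_of_mul_eq_mul_right (by simp only at h3; omega) h4
    subst h5
    rfl

/-- `(log q)^(1+e) ≤ L q^δ` -/
theorem logb (e δ : ℝ) (he : 0 < e) (hδ : 0 < δ) : ∃ L : ℝ, 0 < L ∧ ∀ q : ℝ, 1 ≤ q →
    Real.log q ^ (1 + e) ≤ L * q ^ δ := by
  refine ⟨(1 / (δ / (1 + e))) ^ (1 + e), by positivity, fun q hq => ?_⟩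
  have h1 := Real.log_le_rpow_div (x := q) (by linarith) (ε := δ / (1 + e)) (by positivity)
  have hq0 : 0 ≤ q := by linarith
  calc Real.log q ^ (1 + e) ≤ (q ^ (δ / (1 + e)) / (δ / (1 + e))) ^ (1 + e) :=
        Real.rpow_le_rpow (Real.log_nonneg hq) h1 (by positivity)
    _ = (1 / (δ / (1 + e))) ^ (1 + e) * (q ^ (δ / (1 + e))) ^ (1 + e) := by
        rw [← Real.mul_rpow (by positivity) (by positivity)]; congr 1; ring
    _ = (1 / (δ / (1 + e))) ^ (1 + e) * q ^ δ := by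
        rw [← Real.rpow_mul hq0]; congr 2; field_simp

/-- `t_q > 0` -/
theorem tq_pos (e c : ℝ) (hc : 0 < c) (q : ℕ) (hq : 2 ≤ q) : 0 < tq e c q := by
  unfold tq
  have h1 : (2 : ℝ) ≤ q := by exact_mod_cast hq
  have h2 : 0 < Real.log q := Real.log_pos (by linarith)
  positivity

/-- `h < T_q` gives `t_q ≤ 1/(2h)` -/
theorem tq_le (e c : ℝ) (hc : 0 < c) (q : ℕ) (hq : 2 ≤ q) (h : ℕ) (_hh : 1 ≤ h)
    (hT : h < Tq e c q) : 2 * tq e c q * h ≤ 1 := by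
  have h0 := tq_pos e c hc q hq
  unfold Tq at hT
  have h1 : (h : ℝ) ≤ 1 / (2 * tq e c q) := by
    refine le_trans ?_ (Nat.floor_le (by positivity))
    exact_mod_cast hT.le
  rw [le_div_iff₀ (by positivity)] at h1
  linarith

/-- the weight -/
theorem wt (e c : ℝ) (he : 0 < e) (hc : 0 < c) : ∃ B : ℝ, 0 < B ∧ ∀ q : ℕ, 2 ≤ q → ∀ h : ℕ, 1 ≤ h →
    h < Tq e c q → tq e c q ≤ B * ((h * q : ℕ) : ℝ) ^ (-(1 / 2 : ℝ)) := by
  have hl : 0 < Real.log 2 := Real.log_pos (by norm_num)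
  refine ⟨Real.sqrt (c / (2 * Real.log 2 ^ (1 + e))), by positivity, fun q hq h hh hT => ?_⟩
  have h0 := tq_pos e c hc q hq
  have h1 := tq_le e c hc q hq h hh hT
  have hq2 : (2 : ℝ) ≤ q := by exact_mod_cast hq
  have hh1 : (1 : ℝ) ≤ h := by exact_mod_cast hh
  have h2 : tq e c q ≤ c / (q * Real.log 2 ^ (1 + e)) := by
    unfold tq
    refine div_le_div_of_nonneg_left hc.le (by positivity) ?_
    refine mul_le_mul_of_nonneg_left ?_ (by positivity)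
    exact Real.rpow_le_rpow hl.le (Real.log_le_log (by norm_num) hq2) (by positivity)
  have h3 : tq e c q ^ 2 ≤ c / (2 * Real.log 2 ^ (1 + e)) * ((h * q : ℕ) : ℝ)⁻¹ := by
    have h4 : tq e c q ≤ 1 / (2 * h) := by
      rw [le_div_iff₀ (by positivity)]; linarith
    calc tq e c q ^ 2 = tq e c q * tq e c q := by ring
      _ ≤ c / (q * Real.log 2 ^ (1 + e)) * (1 / (2 * h)) :=
          mul_le_mul h2 h4 h0.le (by positivity)
      _ = c / (2 * Real.log 2 ^ (1 + e)) * ((h * q : ℕ) : ℝ)⁻¹ := by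
          push_cast; field_simp
  have h5 : ((h * q : ℕ) : ℝ) ^ (-(1 / 2 : ℝ)) = Real.sqrt (((h * q : ℕ) : ℝ)⁻¹) := by
    rw [Real.sqrt_eq_rpow, Real.inv_rpow (by positivity), Real.rpow_neg (by positivity)]
  rw [h5, ← Real.sqrt_mul (by positivity)]
  exact Real.le_sqrt_of_sq_le h3

theorem blk_of (hS : GSum) : GBlk := by
  intro m x hx e c k he hc hk
  by_cases hkm : (m : ℝ) ≤ k
  · refine ⟨1, fun H hH => ?_⟩
    have hH1 : (1 : ℝ) ≤ H := by exact_mod_cast hH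
    have h1 : (H : ℝ) ^ ((m : ℝ) - k) ≤ 1 :=
      Real.rpow_le_one_of_one_le_of_nonpos hH1 (by linarith)
    have h2 : ⌊(H : ℝ) ^ ((m : ℝ) - k)⌋₊ ≤ 1 := by
      have := Nat.floor_le_floor h1
      rwa [Nat.floor_one] at this
    rw [Icc_eq_empty (by omega)]
    simp only [sum_empty]; positivity
  push Not at hkm
  obtain ⟨δ, hδ0, hδ1, hδk⟩ : ∃ δ : ℝ, 0 < δ ∧ δ ≤ 1 ∧ δ * (7 * m + 1) ≤ k / 4 := by
    refine ⟨min 1 (k / (4 * (7 * m + 1))), lt_min one_pos (by positivity), min_le_left _ _, ?_⟩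
    calc min 1 (k / (4 * (7 * m + 1))) * (7 * m + 1) ≤ k / (4 * (7 * m + 1)) * (7 * m + 1) :=
          mul_le_mul_of_nonneg_right (min_le_right _ _) (by positivity)
      _ = k / 4 := by field_simp
  obtain ⟨C, hC0, hC⟩ := hS m x hx δ hδ0
  obtain ⟨D, hD0, hD⟩ := Helper92.Field.divisor_bound hδ0
  obtain ⟨L, hL0, hL⟩ := logb e δ he hδ0
  obtain ⟨B, hB0, hB⟩ := wt e c he hc
  set M : ℝ := L / (2 * c) with hM
  have hM0 : 0 < M := by positivity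
  set K : ℝ := 5 * B * C * D * M ^ (1 / 2 + 2 * δ) with hK
  have hK0 : 0 < K := by positivity
  refine ⟨⌈K ^ (4 / k)⌉₊ + 1, fun H hH => ?_⟩
  have hH1 : 1 ≤ H := by omega
  have hH1r : (1 : ℝ) ≤ H := by exact_mod_cast hH1
  have hKH : K ≤ (H : ℝ) ^ (k / 4) := by
    have h1 : K ^ (4 / k) ≤ (H : ℝ) := by
      refine (Nat.le_ceil _).trans ?_
      exact_mod_cast (by omega : ⌈K ^ (4 / k)⌉₊ ≤ H)
    calc K = (K ^ (4 / k)) ^ (k / 4) := by
          rw [← Real.rpow_mul hK0.le]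
          rw [show 4 / k * (k / 4) = 1 by field_simp, Real.rpow_one]
      _ ≤ _ := Real.rpow_le_rpow (by positivity) h1 (by positivity)
  set X : ℕ := ⌊(H : ℝ) ^ ((m : ℝ) - k)⌋₊ with hX
  have hXH : (X : ℝ) ≤ (H : ℝ) ^ ((m : ℝ) - k) := Nat.floor_le (by positivity)
  set Y : ℕ := ⌊M * (X : ℝ) ^ (2 + δ)⌋₊ with hYdef
  have hYX : (Y : ℝ) ≤ M * (X : ℝ) ^ (2 + δ) := Nat.floor_le (by positivity)
  have hYb : ∀ q ∈ Icc 2 X, ∀ h ∈ Ico 1 (Tq e c q), h * q ≤ Y := by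
    intro q hq h hh
    rw [mem_Icc] at hq
    rw [mem_Ico] at hh
    have h0 := tq_pos e c hc q hq.1
    have h1 := tq_le e c hc q hq.1 h hh.1 hh.2
    have hq2 : (2 : ℝ) ≤ q := by exact_mod_cast hq.1
    have hqX : (q : ℝ) ≤ X := by exact_mod_cast hq.2
    have hlq : 0 < Real.log q := Real.log_pos (by linarith)
    rw [hYdef]
    refine Nat.le_floor ?_
    push_cast
    have h2 : (h : ℝ) ≤ q * Real.log q ^ (1 + e) / (2 * c) := by
      unfold tq at h1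
      rw [le_div_iff₀ (by positivity)]
      have : 2 * (c / (q * Real.log q ^ (1 + e))) * h * (q * Real.log q ^ (1 + e)) ≤
          1 * (q * Real.log q ^ (1 + e)) := mul_le_mul_of_nonneg_right h1 (by positivity)
      have e1 : 2 * (c / (q * Real.log q ^ (1 + e))) * h * (q * Real.log q ^ (1 + e)) =
          h * (2 * c) := by
        field_simp
      linarith
    calc (h : ℝ) * q ≤ q * Real.log q ^ (1 + e) / (2 * c) * q :=
          mul_le_mul_of_nonneg_right h2 (by positivity)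
      _ ≤ q * (L * (q : ℝ) ^ δ) / (2 * c) * q := by
          have := hL q (by linarith)
          gcongr
      _ = M * ((q : ℝ) ^ (2 : ℝ) * (q : ℝ) ^ δ) := by
          rw [hM, Real.rpow_two]; ring
      _ = M * (q : ℝ) ^ (2 + δ) := by rw [← Real.rpow_add (by linarith)]
      _ ≤ M * (X : ℝ) ^ (2 + δ) := by
          refine mul_le_mul_of_nonneg_left ?_ hM0.le
          exact Real.rpow_le_rpow (by positivity) hqX (by positivity)
  have hA : ∀ Z : ℕ, ∑ y ∈ Icc 1 Z, Pr x H y ≤ (C * (H : ℝ) ^ δ) * (Z : ℝ) ^ (1 + δ) := by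
    intro Z
    have := hC Z H hH1
    calc _ ≤ _ := this
      _ = _ := by ring
  have hps := psum (fun y => Pr x H y) (fun y => Pr_nonneg _ _ _) (C * (H : ℝ) ^ δ) δ
    (by positivity) hδ0 hA Y
  calc ∑ q ∈ Icc 2 X, tq e c q * ∑ h ∈ Ico 1 (Tq e c q), Pr x H (h * q)
      = ∑ q ∈ Icc 2 X, ∑ h ∈ Ico 1 (Tq e c q), tq e c q * Pr x H (h * q) := by
        refine sum_congr rfl fun q _ => ?_
        rw [mul_sum]
    _ ≤ ∑ q ∈ Icc 2 X, ∑ h ∈ Ico 1 (Tq e c q),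
          (fun y : ℕ => B * (y : ℝ) ^ (-(1 / 2 : ℝ)) * Pr x H y) (h * q) := by
        refine sum_le_sum fun q hq => sum_le_sum fun h hh => ?_
        rw [mem_Icc] at hq
        rw [mem_Ico] at hh
        exact mul_le_mul_of_nonneg_right (hB q hq.1 h hh.1 hh.2) (Pr_nonneg _ _ _)
    _ ≤ ∑ y ∈ Icc 1 Y, (y.divisors.card : ℝ) *
          (fun y : ℕ => B * (y : ℝ) ^ (-(1 / 2 : ℝ)) * Pr x H y) y := by
        refine fib (fun y : ℕ => B * (y : ℝ) ^ (-(1 / 2 : ℝ)) * Pr x H y) (fun y => ?_) X Y _ hYb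
        exact mul_nonneg (by positivity) (Pr_nonneg _ _ _)
    _ ≤ ∑ y ∈ Icc 1 Y, D * (Y : ℝ) ^ δ * B * (Pr x H y * (y : ℝ) ^ (-(1 / 2 : ℝ))) := by
        refine sum_le_sum fun y hy => ?_
        rw [mem_Icc] at hy
        have h1 : (y.divisors.card : ℝ) ≤ D * (Y : ℝ) ^ δ := by
          refine (hD y (by omega)).trans (mul_le_mul_of_nonneg_left ?_ hD0.le)
          exact Real.rpow_le_rpow (by positivity) (by exact_mod_cast hy.2) hδ0.le
        have h2 : 0 ≤ B * (y : ℝ) ^ (-(1 / 2 : ℝ)) * Pr x H y :=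
          mul_nonneg (by positivity) (Pr_nonneg _ _ _)
        calc (y.divisors.card : ℝ) * (B * (y : ℝ) ^ (-(1 / 2 : ℝ)) * Pr x H y)
            ≤ D * (Y : ℝ) ^ δ * (B * (y : ℝ) ^ (-(1 / 2 : ℝ)) * Pr x H y) :=
              mul_le_mul_of_nonneg_right h1 h2
          _ = _ := by ring
    _ = D * (Y : ℝ) ^ δ * B * ∑ y ∈ Icc 1 Y, Pr x H y * (y : ℝ) ^ (-(1 / 2 : ℝ)) := by
        rw [mul_sum]
    _ ≤ D * (Y : ℝ) ^ δ * B * (5 * (C * (H : ℝ) ^ δ) * (Y : ℝ) ^ (1 / 2 + δ)) :=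
        mul_le_mul_of_nonneg_left hps (by positivity)
    _ = 5 * B * C * D * (H : ℝ) ^ δ * (Y : ℝ) ^ (1 / 2 + 2 * δ) := by
        have : (Y : ℝ) ^ (1 / 2 + 2 * δ) = (Y : ℝ) ^ δ * (Y : ℝ) ^ (1 / 2 + δ) := by
          rw [← Real.rpow_add_of_nonneg (by positivity) (by positivity) (by positivity)]
          congr 1; ring
        rw [this]; ring
    _ ≤ 5 * B * C * D * (H : ℝ) ^ δ * (M * (X : ℝ) ^ (2 + δ)) ^ (1 / 2 + 2 * δ) := by
        refine mul_le_mul_of_nonneg_left ?_ (by positivity)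
        exact Real.rpow_le_rpow (by positivity) hYX (by positivity)
    _ = K * ((H : ℝ) ^ δ * (X : ℝ) ^ ((2 + δ) * (1 / 2 + 2 * δ))) := by
        rw [Real.mul_rpow (by positivity) (by positivity), ← Real.rpow_mul (by positivity), hK]
        ring
    _ ≤ K * ((H : ℝ) ^ δ * ((H : ℝ) ^ ((m : ℝ) - k)) ^ ((2 + δ) * (1 / 2 + 2 * δ))) := by
        refine mul_le_mul_of_nonneg_left (mul_le_mul_of_nonneg_left ?_ (by positivity)) hK0.le
        exact Real.rpow_le_rpow (by positivity) hXH (by positivity)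
    _ = K * (H : ℝ) ^ (δ + ((m : ℝ) - k) * ((2 + δ) * (1 / 2 + 2 * δ))) := by
        rw [← Real.rpow_mul (by positivity), ← Real.rpow_add (by linarith)]
    _ ≤ K * (H : ℝ) ^ ((m : ℝ) - 3 / 4 * k) := by
        refine mul_le_mul_of_nonneg_left ?_ hK0.le
        refine Real.rpow_le_rpow_of_exponent_le hH1r ?_
        have h1 : (2 + δ) * (1 / 2 + 2 * δ) ≤ 1 + 7 * δ := by nlinarith
        have h2 : ((m : ℝ) - k) * ((2 + δ) * (1 / 2 + 2 * δ)) ≤ ((m : ℝ) - k) * (1 + 7 * δ) :=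
          mul_le_mul_of_nonneg_left h1 (by linarith)
        have h3 : ((m : ℝ) - k) * (7 * δ) ≤ m * (7 * δ) :=
          mul_le_mul_of_nonneg_right (by linarith) (by positivity)
        nlinarith
    _ ≤ (H : ℝ) ^ (k / 4) * (H : ℝ) ^ ((m : ℝ) - 3 / 4 * k) :=
        mul_le_mul_of_nonneg_right hKH (by positivity)
    _ = (H : ℝ) ^ ((m : ℝ) - k / 2) := by
        rw [← Real.rpow_add (by linarith)]; congr 1; ring

end Pool.Agent.Helper26.LF
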